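import Pool.Agent.Run7.h872.WD.Defs

/-!
# Piece MOM of the project WD: the first four moments agree
-/

set_option autoImplicit false

namespace Pool.Agent.Run7.h404.WD

open Finset Pool.Agent.Run7.h872.WD

section

variable {K : Type} [Field K] [Fintype K] [Algebra (ZMod 2) K]

omit [Fintype K] in
theorem psi_zero : psi (0 : K) = 1 := by simp [psi]

omit [Fintype K] in
theorem psi_add (x y : K) : psi (x + y) = psi x * psi y := by
  unfold psi
  rw [map_add]
  generalize Algebra.trace (ZMod 2) K x = a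
  generalize Algebra.trace (ZMod 2) K y = b
  have h2 : ∀ a : ZMod 2, a = 0 ∨ a = 1 := by decide
  have h11 : (1 : ZMod 2) + 1 = 0 := by decide
  have h1 : (1 : ZMod 2) ≠ 0 := by decide
  rcases h2 a with rfl | rfl <;> rcases h2 b with rfl | rfl <;> simp [h11, h1]

/-- the character -/
noncomputable def chi : AddChar K ℚ where
  toFun := psi
  map_zero_eq_one' := psi_zero
  map_add_eq_mul' := psi_add

omit [Fintype K] in
theorem chi_apply (x : K) : chi x = psi x := rfl

theorem chi_prim : (chi : AddChar K ℚ).IsPrimitive := by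
  apply AddChar.IsPrimitive.of_ne_one
  intro h
  obtain ⟨z, hz⟩ := Algebra.trace_surjective (ZMod 2) K 1
  have h1 : (chi : AddChar K ℚ) z = 1 := by rw [h]; rfl
  rw [chi_apply] at h1
  unfold psi at h1
  rw [hz, if_neg (by decide)] at h1
  norm_num at h1

open Classical in
theorem sum_psi (b : K) : ∑ x : K, psi (x * b) = if b = 0 then (Fintype.card K : ℚ) else 0 := by
  have h := AddChar.sum_mulShift (ψ := (chi : AddChar K ℚ)) b chi_prim
  simp only [chi_apply] at h
  rw [h]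
  split_ifs <;> simp

omit [Fintype K] in
theorem prod_psi {ι : Type} (s : Finset ι) (f : ι → K) :
    ∏ i ∈ s, psi (f i) = psi (∑ i ∈ s, f i) := by
  classical
  induction s using Finset.induction_on with
  | empty => rw [prod_empty, sum_empty, psi_zero]
  | insert a s ha ih => rw [prod_insert ha, sum_insert ha, psi_add, ih]

open Classical in
/-- the triple sum -/
theorem triple (A B C : K) : ∑ v : K × K × K, psi (v.1 * A + v.2.1 * B + v.2.2 * C) =
    if A = 0 ∧ B = 0 ∧ C = 0 then (Fintype.card K : ℚ) ^ 3 else 0 := by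
  have h1 : ∑ v : K × K × K, psi (v.1 * A + v.2.1 * B + v.2.2 * C) =
      (∑ a : K, psi (a * A)) * ((∑ b : K, psi (b * B)) * ∑ c : K, psi (c * C)) := by
    rw [Fintype.sum_prod_type, sum_mul]
    refine sum_congr rfl fun a _ => ?_
    rw [Fintype.sum_prod_type, sum_mul_sum, mul_sum]
    refine sum_congr rfl fun b _ => ?_
    rw [mul_sum]
    refine sum_congr rfl fun c _ => ?_
    rw [psi_add, psi_add, mul_assoc]
  rw [h1, sum_psi, sum_psi, sum_psi]
  by_cases hA : A = 0 <;> by_cases hB : B = 0 <;> by_cases hC : C = 0 <;>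
    simp [hA, hB, hC] <;> ring

open Classical in
theorem moment (e f k : ℕ) : ∑ v : K × K × K, S e f v ^ k =
    ∑ x : Fin k → K, if (∑ i, x i = 0 ∧ ∑ i, x i ^ e = 0 ∧ ∑ i, x i ^ f = 0) then
      (Fintype.card K : ℚ) ^ 3 else 0 := by
  have h1 : ∀ v : K × K × K, S e f v ^ k = ∑ x : Fin k → K,
      psi (v.1 * (∑ i, x i) + v.2.1 * (∑ i, x i ^ e) + v.2.2 * (∑ i, x i ^ f)) := by
    intro v
    unfold S
    rw [Fintype.sum_pow]
    refine sum_congr rfl fun x _ => ?_
    rw [prod_psi, mul_sum, mul_sum, mul_sum, ← sum_add_distrib, ← sum_add_distrib]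
  rw [sum_congr rfl (fun v _ => h1 v), sum_comm]
  exact sum_congr rfl fun x _ => triple _ _ _

end

/-- trivial quadruples -/
def Triv {K : Type} (x y z w : K) : Prop := (x = y ∧ z = w) ∨ (x = z ∧ y = w) ∨ (x = w ∧ y = z)

section

variable {K : Type} [Field K] [Fintype K] [CharP K 2]

omit [Fintype K] in
theorem triv_pow {x y z w : K} (h : Triv x y z w) (n : ℕ) : x ^ n + y ^ n + z ^ n + w ^ n = 0 := by
  have h2 : ∀ a : K, a + a = 0 := fun a => CharTwo.add_self_eq_zero a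
  rcases h with ⟨rfl, rfl⟩ | ⟨rfl, rfl⟩ | ⟨rfl, rfl⟩
  · linear_combination h2 (x ^ n) + h2 (z ^ n)
  · linear_combination h2 (x ^ n) + h2 (y ^ n)
  · linear_combination h2 (x ^ n) + h2 (y ^ n)

theorem pow_inj (m j : ℕ) (hK : Fintype.card K = 2 ^ m) (hj : Nat.gcd j m = 1) (r : K) (hr : r ≠ 0)
    (h : r ^ (2 ^ j - 1) = 1) : r = 1 := by
  have h1 : r ^ (2 ^ m - 1) = 1 := by
    rw [← hK]
    exact FiniteField.pow_card_sub_one_eq_one r hr
  have h2 : orderOf r ∣ Nat.gcd (2 ^ j - 1) (2 ^ m - 1) :=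
    Nat.dvd_gcd (orderOf_dvd_of_pow_eq_one h) (orderOf_dvd_of_pow_eq_one h1)
  rw [Nat.pow_sub_one_gcd_pow_sub_one, hj] at h2
  have h3 : orderOf r = 1 := Nat.dvd_one.1 h2
  exact orderOf_eq_one_iff.1 h3

theorem triv_of (m j : ℕ) (hK : Fintype.card K = 2 ^ m) (hj : Nat.gcd j m = 1) {x y z w : K}
    (h1 : x + y + z + w = 0)
    (h2 : x ^ (1 + 2 ^ j) + y ^ (1 + 2 ^ j) + z ^ (1 + 2 ^ j) + w ^ (1 + 2 ^ j) = 0) :
    Triv x y z w := by
  have c2 : ∀ a : K, a + a = 0 := fun a => CharTwo.add_self_eq_zero a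
  obtain ⟨u, hu⟩ : ∃ u, u = x + y := ⟨_, rfl⟩
  obtain ⟨v, hv⟩ : ∃ v, v = x + z := ⟨_, rfl⟩
  have hy : y = x + u := by linear_combination -hu - c2 x
  have hz : z = x + v := by linear_combination -hv - c2 x
  have hw : w = x + u + v := by
    linear_combination h1 - hu - hv - 2 * c2 x - c2 y - c2 z
  have fr : ∀ a b : K, (a + b) ^ 2 ^ j = a ^ 2 ^ j + b ^ 2 ^ j := fun a b =>
    add_pow_char_pow (p := 2) (n := j) a b
  have hB : u * v ^ 2 ^ j + u ^ 2 ^ j * v = 0 := by
    rw [hy, hz, hw] at h2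
    simp only [pow_add, pow_one, fr] at h2
    linear_combination h2 - 2 * c2 (x * x ^ 2 ^ j) - c2 (x * u ^ 2 ^ j) - c2 (x * v ^ 2 ^ j)
      - c2 (u * x ^ 2 ^ j) - c2 (v * x ^ 2 ^ j) - c2 (u * u ^ 2 ^ j) - c2 (v * v ^ 2 ^ j)
  by_cases hu0 : u = 0
  · left
    constructor
    · rw [hy, hu0, add_zero]
    · rw [hw, hz, hu0, add_zero]
  by_cases hv0 : v = 0
  · right; left
    constructor
    · rw [hz, hv0, add_zero]
    · rw [hw, hy, hv0, add_zero]
  · right; right
    have huv : u = v := by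
      have h5 : (u / v) ^ (2 ^ j - 1) = 1 := by
        have h6 : (u / v) ^ (2 ^ j - 1) * (u / v) = u / v := by
          rw [← pow_succ, Nat.sub_add_cancel Nat.one_le_two_pow, div_pow]
          rw [div_eq_div_iff (pow_ne_zero _ hv0) hv0]
          linear_combination hB - c2 (u * v ^ 2 ^ j)
        exact mul_right_cancel₀ (div_ne_zero hu0 hv0) (by rw [h6, one_mul])
      have h7 := pow_inj m j hK hj (u / v) (div_ne_zero hu0 hv0) h5
      exact (div_eq_one_iff_eq hv0).1 h7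
    constructor
    · rw [hw, huv, add_assoc, c2, add_zero]
    · rw [hy, hz, huv]

omit [CharP K 2] [Fintype K] in
theorem pad (k : ℕ) (hk : k ≤ 4) (x : Fin k → K) : ∃ a b c d : K, ∀ n : ℕ, 1 ≤ n →
    ∑ i, x i ^ n = a ^ n + b ^ n + c ^ n + d ^ n := by
  have h0 : ∀ n : ℕ, 1 ≤ n → (0 : K) ^ n = 0 := fun n hn => zero_pow (by omega)
  interval_cases k
  · exact ⟨0, 0, 0, 0, fun n hn => by simp [h0 n hn]⟩
  · exact ⟨x 0, 0, 0, 0, fun n hn => by simp [h0 n hn]⟩
  · exact ⟨x 0, x 1, 0, 0, fun n hn => by simp [h0 n hn, Fin.sum_univ_two]⟩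
  · exact ⟨x 0, x 1, x 2, 0, fun n hn => by simp [h0 n hn, Fin.sum_univ_three]⟩
  · exact ⟨x 0, x 1, x 2, x 3, fun n hn => by simp [Fin.sum_univ_four]⟩

end

theorem t_MOM : S_MOM := by
  intro t ht K _ _ _ hK k hk
  have : CharP K 2 := charP_of_injective_algebraMap (algebraMap (ZMod 2) K).injective 2
  rw [moment, moment]
  refine sum_congr rfl fun x _ => ?_
  obtain ⟨a, b, c, d, hx⟩ := pad k hk x
  have h1 : ∑ i, x i = a + b + c + d := by
    have := hx 1 le_rfl
    simpa using this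
  have key : ∀ e f : ℕ, 1 ≤ e → 1 ≤ f → (∃ j, Nat.gcd j (2 * t + 1) = 1 ∧
      (e = 1 + 2 ^ j ∨ f = 1 + 2 ^ j)) →
      ((∑ i, x i = 0 ∧ ∑ i, x i ^ e = 0 ∧ ∑ i, x i ^ f = 0) ↔ Triv a b c d) := by
    rintro e f he hf ⟨j, hj, hef⟩
    rw [h1, hx e he, hx f hf]
    constructor
    · rintro ⟨g1, g2, g3⟩
      rcases hef with rfl | rfl
      · exact triv_of _ j hK hj g1 g2
      · exact triv_of _ j hK hj g1 g3
    · intro h
      exact ⟨by simpa using triv_pow h 1, triv_pow h e, triv_pow h f⟩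
  have k1 := key (1 + 2 ^ (t - 1)) (1 + 2 ^ t) (Nat.le_add_right 1 _) (Nat.le_add_right 1 _)
    ⟨t, by
      have : 2 * t + 1 = 1 + t * 2 := by ring
      rw [this, Nat.gcd_add_mul_left_right, Nat.gcd_one_right], Or.inr rfl⟩
  have k2 := key 3 5 (by norm_num) (by norm_num) ⟨1, by simp, Or.inl (by norm_num)⟩
  by_cases h : Triv a b c d
  · rw [if_pos (k1.2 h), if_pos (k2.2 h)]
  · rw [if_neg (fun g => h (k1.1 g)), if_neg (fun g => h (k2.1 g))]

end Pool.Agent.Run7.h404.WD
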